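import Pool.Agent.Y613.HT.Defs
import Pool.Agent.H834Q.Lower

/-!
# Colourings without homogeneous sets
-/

set_option autoImplicit false
set_option linter.unusedSectionVars false

namespace Pool.Agent.Y613.HT

open Finset Pool.Agent.H834Q

/-- triples, any number of digits up to `n ^ (h + 1)` -/
theorem lower_triples {n h m : ℕ} (hn : 1 ≤ n) (hm : m ≤ n ^ (h + 1)) :
    ∀ S ⊆ range (2 ^ m), S.card = n + 2 → ¬ Homog 3 (col n h m) S := by
  classical
  intro S hS hSc hH
  have hSm : ∀ a ∈ S, a < 2 ^ m := fun a ha => mem_range.1 (hS ha)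
  -- the common colour
  obtain ⟨A₀, hA₀, hA₀c⟩ := exists_subset_card_eq (s := S) (n := 3) (by omega)
  set k := col n h m A₀ with hk
  have hcol : ∀ a ∈ S, ∀ b ∈ S, ∀ c ∈ S, a < b → b < c → col n h m {a, b, c} = k := by
    intro a ha b hb c hc hab hbc
    refine hH _ ?_ _ hA₀ ?_ hA₀c
    · intro x hx
      simp only [mem_insert, mem_singleton] at hx
      rcases hx with rfl | rfl | rfl <;> assumption
    · rw [card_eq_three]
      exact ⟨a, b, c, hab.ne, (hab.trans hbc).ne, hbc.ne, rfl⟩
  have hsp : ∀ a ∈ S, ∀ b ∈ S, a < b → ∃ t, Split m a b t :=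
    fun a _ b hb hab => exists_split hab (hSm b hb)
  have hne : S.Nonempty := card_pos.1 (by omega)
  have hkh : (k.2 : ℕ) ≤ h := by have := k.2.2; omega
  have hfin : ∀ (T : Finset ℕ) (d : ℕ → ℕ), T.card = n + 1 →
      (∀ a ∈ T, ∀ b ∈ T, a < b → d a / n ^ (k.2 : ℕ) % n ≠ d b / n ^ (k.2 : ℕ) % n) → False := by
    intro T d hT hd
    have h1 : (T.image (fun a => d a / n ^ (k.2 : ℕ) % n)).card = n + 1 := by
      rw [card_image_of_injOn, hT]
      intro a ha b hb hab
      by_contra hne
      rcases lt_or_gt_of_ne hne with h | h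
      · exact hd a ha b hb h hab
      · exact hd b hb a ha h hab.symm
    have h2 : T.image (fun a => d a / n ^ (k.2 : ℕ) % n) ⊆ range n := by
      intro x hx
      obtain ⟨a, -, rfl⟩ := mem_image.1 hx
      exact mem_range.2 (Nat.mod_lt _ (by omega))
    have h3 := card_le_card h2
    rw [h1, card_range] at h3
    omega
  cases hk1 : k.1 with
  | true =>
    set M := S.max' hne with hM
    have hMS : M ∈ S := S.max'_mem hne
    have hlt : ∀ a ∈ S.erase M, a ∈ S ∧ a < M := by
      intro a ha
      rw [mem_erase] at ha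
      exact ⟨ha.2, lt_of_le_of_ne (S.le_max' a ha.2) ha.1⟩
    choose! d hd using fun a (ha : a ∈ S.erase M) => hsp a (hlt a ha).1 M hMS (hlt a ha).2
    refine hfin (S.erase M) d (by rw [card_erase_of_mem hMS]; omega) ?_
    intro a ha b hb hab
    obtain ⟨haS, haM⟩ := hlt a ha
    obtain ⟨hbS, hbM⟩ := hlt b hb
    obtain ⟨t, ht⟩ := hsp a haS b hbS hab
    obtain ⟨h1, h2, h3⟩ := col_triple hab hbM (hSm M hMS) ht (hd b hb) (hcol a haS b hbS M hMS hab hbM)
    rw [hk1] at h1
    have htb : t < d b := by simpa using h1.symm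
    have hta : d a = t := (hd a ha).unique (ht.trans_left (hd b hb) htb)
    rw [hta]
    rw [min_eq_left htb.le, max_eq_right htb.le] at h2 h3
    exact digit_ne (by omega) htb ((hd b hb).lt.trans_le hm) hkh h2 h3
  | false =>
    set M := S.min' hne with hM
    have hMS : M ∈ S := S.min'_mem hne
    have hlt : ∀ a ∈ S.erase M, a ∈ S ∧ M < a := by
      intro a ha
      rw [mem_erase] at ha
      exact ⟨ha.2, lt_of_le_of_ne (S.min'_le a ha.2) (Ne.symm ha.1)⟩
    choose! d hd using fun a (ha : a ∈ S.erase M) => hsp M hMS a (hlt a ha).1 (hlt a ha).2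
    refine hfin (S.erase M) d (by rw [card_erase_of_mem hMS]; omega) ?_
    intro a ha b hb hab
    obtain ⟨haS, haM⟩ := hlt a ha
    obtain ⟨hbS, hbM⟩ := hlt b hb
    obtain ⟨t, ht⟩ := hsp a haS b hbS hab
    obtain ⟨h1, h2, h3⟩ := col_triple haM hab (hSm b hbS) (hd a ha) ht (hcol M hMS a haS b hbS haM hab)
    rw [hk1] at h1
    have hne' := (hd a ha).ne ht
    have htb : t < d a := by
      have : ¬ d a < t := by simpa using h1.symm
      omega
    have hta : d b = t := (hd b hb).unique ((hd a ha).trans_right ht htb)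
    rw [hta]
    rw [min_eq_right htb.le, max_eq_left htb.le] at h2 h3
    exact (digit_ne (by omega) htb ((hd a ha).lt.trans_le hm) hkh h2 h3).symm

/-- the program for `r`-tuples looks at the first three vertices only -/
def stepr (n h : ℕ) {r : ℕ} (hr : 3 ≤ r) (t : ℕ) (q : St h) (x : Fin r → Bool) : St h :=
  step n h t q (fun i => x (Fin.castLE hr i))

lemma state_stepr (n h : ℕ) {r : ℕ} (hr : 3 ≤ r) (π : ℕ → ℕ) (v : Fin r → ℕ) (t : ℕ) :
    state (stepr n h hr) none π v t = run (step n h) none π (fun i => v (Fin.castLE hr i)) t := by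
  induction t with
  | zero => rfl
  | succ t ih =>
    show stepr n h hr t (state (stepr n h hr) none π v t) _ =
      step n h t (run (step n h) none π (fun i => v (Fin.castLE hr i)) t) _
    rw [ih]
    rfl

/-- the colouring of `r`-sets -/
noncomputable def colr (n h : ℕ) {r : ℕ} (hr : 3 ≤ r) (m : ℕ) (A : Finset ℕ) :
    Bool × Fin (h + 1) :=
  if hA : A.card = r then out h (state (stepr n h hr) none (top m) (A.orderEmbOfFin hA) m)
  else (false, 0)

lemma colr_computed (n h : ℕ) {r : ℕ} (hr : 3 ≤ r) (m : ℕ) :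
    ComputedBy r m (colr n h hr m) (stepr n h hr) none (top m) (out h) := by
  refine ⟨⟨?_, ?_, ?_⟩, ?_⟩
  · intro t ht
    simp only [Set.mem_Iio, top] at ht ⊢
    omega
  · intro s hs t ht hst
    simp only [Set.mem_Iio, top] at hs ht hst
    omega
  · intro t ht
    simp only [Set.mem_Iio] at ht
    refine ⟨m - 1 - t, ?_, ?_⟩
    · simp only [Set.mem_Iio]; omega
    · simp only [top]; omega
  · intro v hv _
    have hcard : (univ.image v).card = r := by
      rw [card_image_of_injective _ hv.injective, card_univ, Fintype.card_fin]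
    unfold colr
    rw [dif_pos hcard]
    congr 2
    symm
    exact orderEmbOfFin_unique hcard (fun i => mem_image.2 ⟨i, mem_univ _, rfl⟩) hv

/-- **Colourings without homogeneous sets.** -/
theorem avoids {n h r m : ℕ} (hn : 1 ≤ n) (hr : 3 ≤ r) (hm : m ≤ n ^ (h + 1)) :
    Avoids r m (n + r - 1) (4 * (h + 1) + 1) := by
  refine ⟨Bool × Fin (h + 1), St h, inferInstance, colr n h hr m, stepr n h hr, none, top m,
    out h, ?_, colr_computed n h hr m, ?_⟩
  · simp only [St, Fintype.card_option, Fintype.card_prod, Fintype.card_bool, Fintype.card_fin]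
    omega
  intro S hS hSc hH
  obtain ⟨e, he⟩ : ∃ e : Fin (n + r - 1) → ℕ, e = S.orderEmbOfFin hSc := ⟨_, rfl⟩
  have hemono : StrictMono e := by
    rw [he]
    exact (S.orderEmbOfFin hSc).strictMono
  have heS : ∀ i, e i ∈ S := by
    intro i
    rw [he]
    exact S.orderEmbOfFin_mem hSc i
  obtain ⟨f, hf⟩ : ∃ f : Fin (n + 2) → ℕ, f = fun i : Fin (n + 2) => e ⟨(i : ℕ), by omega⟩ :=
    ⟨_, rfl⟩
  have hfmono : StrictMono f := by
    intro i j hij
    rw [hf]
    exact hemono (by rw [Fin.mk_lt_mk]; exact hij)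
  have hSm : ∀ a ∈ S, a < 2 ^ m := fun a ha => mem_range.1 (hS ha)
  have hS' : ∀ a ∈ univ.image f, a ∈ S ∧ ∀ j : Fin (n + r - 1), n + 2 ≤ (j : ℕ) → a < e j := by
    intro a ha
    rw [mem_image] at ha
    obtain ⟨i, -, rfl⟩ := ha
    rw [hf]
    refine ⟨heS _, fun j hj => hemono ?_⟩
    rw [Fin.lt_def]
    have := i.2
    simp only
    omega
  refine lower_triples hn hm (univ.image f) (fun a ha => hS (hS' a ha).1) ?_ ?_
  · rw [card_image_of_injective _ hfmono.injective, card_univ, Fintype.card_fin]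
  have key : ∀ A ⊆ univ.image f, A.card = 3 → ∃ B ⊆ S, B.card = r ∧
      col n h m A = colr n h hr m B := by
    intro A hA hA3
    obtain ⟨u, hu⟩ : ∃ u : Fin 3 → ℕ, u = A.orderEmbOfFin hA3 := ⟨_, rfl⟩
    have humono : StrictMono u := by
      rw [hu]
      exact (A.orderEmbOfFin hA3).strictMono
    have huA : ∀ i, u i ∈ A := by
      intro i
      rw [hu]
      exact A.orderEmbOfFin_mem hA3 i
    have huim : univ.image u = A := by
      apply eq_of_subset_of_card_le
      · intro y hy
        rw [mem_image] at hy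
        obtain ⟨i, -, rfl⟩ := hy
        exact huA i
      · rw [card_image_of_injective _ humono.injective, card_univ, Fintype.card_fin, hA3]
    obtain ⟨v, hv1, hv2⟩ : ∃ v : Fin r → ℕ, (∀ i : Fin 3, v (Fin.castLE hr i) = u i) ∧
        ∀ i : Fin r, 3 ≤ (i : ℕ) → ∃ j : Fin (n + r - 1), (j : ℕ) = i + n - 1 ∧ v i = e j := by
      refine ⟨fun i => if hi : (i : ℕ) < 3 then u ⟨i, hi⟩ else e ⟨i + n - 1, by omega⟩, ?_, ?_⟩
      · intro i
        simp only [Fin.val_castLE, Fin.is_lt, dif_pos, Fin.eta]
      · intro i hi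
        refine ⟨⟨i + n - 1, by omega⟩, rfl, ?_⟩
        simp only [not_lt.mpr hi, dif_neg, not_false_iff]
    have hvmono : StrictMono v := by
      intro i j hij
      rw [Fin.lt_def] at hij
      rcases Nat.lt_or_ge i 3 with hi | hi
      · have e1 : i = Fin.castLE hr ⟨i, hi⟩ := Fin.ext rfl
        rw [e1, hv1]
        rcases Nat.lt_or_ge j 3 with hj | hj
        · have e2 : j = Fin.castLE hr ⟨j, hj⟩ := Fin.ext rfl
          rw [e2, hv1]
          exact humono (by rw [Fin.mk_lt_mk]; exact hij)
        · obtain ⟨j', hj', hj''⟩ := hv2 j hj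
          rw [hj'']
          exact (hS' _ (hA (huA _))).2 j' (by omega)
      · obtain ⟨i', hi', hi''⟩ := hv2 i hi
        obtain ⟨j', hj', hj''⟩ := hv2 j (by omega)
        rw [hi'', hj'']
        apply hemono
        rw [Fin.lt_def]
        omega
    have hvS : ∀ i, v i ∈ S := by
      intro i
      rcases Nat.lt_or_ge i 3 with hi | hi
      · have e1 : i = Fin.castLE hr ⟨i, hi⟩ := Fin.ext rfl
        rw [e1, hv1]
        exact (hS' _ (hA (huA _))).1
      · obtain ⟨i', hi', hi''⟩ := hv2 i hi
        rw [hi'']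
        exact heS _
    refine ⟨univ.image v, ?_, ?_, ?_⟩
    · intro y hy
      rw [mem_image] at hy
      obtain ⟨i, -, rfl⟩ := hy
      exact hvS i
    · rw [card_image_of_injective _ hvmono.injective, card_univ, Fintype.card_fin]
    · rw [(colr_computed n h hr m).colour v hvmono (fun i => hSm _ (hvS i)), state_stepr]
      have h1 : (fun i => v (Fin.castLE hr i)) = u := funext hv1
      rw [h1, ← col_computed n h m u humono (fun i => by
        rw [← hv1]
        exact hSm _ (hvS _)), huim]
  intro A hA B hB hA3 hB3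
  obtain ⟨A', hA', hA'r, hAA'⟩ := key A hA hA3
  obtain ⟨B', hB', hB'r, hBB'⟩ := key B hB hB3
  rw [hAA', hBB']
  exact hH A' hA' B' hB' hA'r hB'r

end Pool.Agent.Y613.HT
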