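import Pool.Agent.Y613.HT.Upper
import Pool.Agent.Y613.HT.Lower

/-!
# The least memory
-/

set_option autoImplicit false
set_option linter.unusedSectionVars false

namespace Pool.Agent.Y613.HT

open Finset

theorem least_le {r n m : ℕ} (hr : 3 ≤ r) (hn : 2 * r ≤ n) (hm : n ≤ m) :
    Avoids r m n (leastMemory r m n) ∧
      (leastMemory r m n : ℝ) ≤ 13 * (Real.log m / Real.log n) := by
  obtain ⟨n', hn'⟩ : ∃ n', n' = n - r + 1 := ⟨_, rfl⟩
  have hn2 : n = n' + r - 1 := by omega
  have h1 : 1 < n' := by omega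
  have hclog : 0 < Nat.clog n' m := Nat.clog_pos h1 (by omega)
  obtain ⟨h, hh⟩ : ∃ h, Nat.clog n' m = h + 1 := ⟨Nat.clog n' m - 1, by omega⟩
  have h2 : m ≤ n' ^ (h + 1) := by
    rw [← hh]
    exact Nat.le_pow_clog h1 m
  have h3 : Avoids r m n (4 * (h + 1) + 1) := by
    rw [hn2]
    exact avoids (by omega) hr h2
  have hmem : leastMemory r m n ∈ {w | Avoids r m n w} := Nat.sInf_mem ⟨_, h3⟩
  refine ⟨hmem, ?_⟩
  have h4 : leastMemory r m n ≤ 4 * (h + 1) + 1 := Nat.sInf_le h3
  have h5 : n' ^ h < m := by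
    have := Nat.pow_pred_clog_lt_self h1 (show 1 < m by omega)
    rwa [hh] at this
  have hlogn : 0 < Real.log n := Real.log_pos (by exact_mod_cast (show 1 < n by omega))
  have hlognm : Real.log n ≤ Real.log m := Real.log_le_log (by exact_mod_cast (show 0 < n by omega))
    (by exact_mod_cast hm)
  have h6 : (h : ℝ) * Real.log n' ≤ Real.log m := by
    rw [← Real.log_pow]
    apply Real.log_le_log
    · have : 0 < n' ^ h := Nat.pow_pos (by omega)
      exact_mod_cast this
    · exact_mod_cast h5.le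
  have h7 : Real.log n ≤ 2 * Real.log n' := by
    have h8 : n ≤ n' ^ 2 := by
      have h9 : n ≤ 2 * n' := by omega
      have h10 : 2 ≤ n' := by omega
      calc n ≤ 2 * n' := h9
        _ ≤ n' * n' := Nat.mul_le_mul_right _ h10
        _ = n' ^ 2 := by ring
    calc Real.log n ≤ Real.log ((n' : ℝ) ^ 2) :=
          Real.log_le_log (by exact_mod_cast (show 0 < n by omega)) (by exact_mod_cast h8)
      _ = 2 * Real.log n' := by rw [Real.log_pow]; norm_num
  have h8 : (h : ℝ) ≤ 2 * (Real.log m / Real.log n) := by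
    rw [← mul_div_assoc, le_div_iff₀ hlogn]
    calc (h : ℝ) * Real.log n ≤ h * (2 * Real.log n') :=
          mul_le_mul_of_nonneg_left h7 (Nat.cast_nonneg _)
      _ = 2 * (h * Real.log n') := by ring
      _ ≤ 2 * Real.log m := by linarith
  have h9 : 1 ≤ Real.log m / Real.log n := by
    rw [le_div_iff₀ hlogn, one_mul]
    exact hlognm
  have h10 : (leastMemory r m n : ℝ) ≤ 4 * (h + 1) + 1 := by exact_mod_cast h4
  linarith

theorem le_least {r n m : ℕ} (hr : 3 ≤ r) (hn : 2 * r ≤ n) (hm : n ≤ m) :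
    Real.log m / ((2 * r + 4) * max (Real.log n) (Real.log (Real.log m))) ≤
      leastMemory r m n := by
  obtain ⟨w, hw⟩ : ∃ w, w = leastMemory r m n := ⟨_, rfl⟩
  have hav := (least_le hr hn hm).1
  rw [← hw] at hav ⊢
  obtain ⟨κ, Q, hfin, c, δ, q₀, π, g, hcard, hc, hS⟩ := hav
  have hwpos : 0 < w := lt_of_lt_of_le (Fintype.card_pos_iff.mpr ⟨q₀⟩) hcard
  have hlt : m < (3 * w ^ (2 * r) * n ^ 2) ^ w := by
    by_contra hcon
    push Not at hcon
    obtain ⟨S, h1, h2, h3⟩ := upper hcon hcard hc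
    exact hS S h1 h2 h3
  have hn6 : 6 ≤ n := by omega
  have hnR : (6 : ℝ) ≤ n := by exact_mod_cast hn6
  have hmR : (n : ℝ) ≤ m := by exact_mod_cast hm
  have hwR : (1 : ℝ) ≤ w := by exact_mod_cast hwpos
  have hlogn : 1 ≤ Real.log n := by
    rw [Real.le_log_iff_exp_le (by linarith)]
    have := Real.exp_one_lt_d9
    linarith
  obtain ⟨M, hM⟩ : ∃ M, M = max (Real.log n) (Real.log (Real.log m)) := ⟨_, rfl⟩
  rw [← hM]
  have hMn : Real.log n ≤ M := by rw [hM]; exact le_max_left _ _
  have hMm : Real.log (Real.log m) ≤ M := by rw [hM]; exact le_max_right _ _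
  have hM1 : 1 ≤ M := hlogn.trans hMn
  have hrR : (0 : ℝ) ≤ r := Nat.cast_nonneg _
  have hpos : (0 : ℝ) < (2 * r + 4) * M := by positivity
  rw [div_le_iff₀ hpos]
  have hlm : Real.log m ≤ Real.log n ∨ True := Or.inr trivial
  have hlogm : 1 ≤ Real.log m := hlogn.trans (Real.log_le_log (by linarith) hmR)
  -- if `w` and `n` are at most `y`
  have key : ∀ y : ℕ, w ≤ y → n ≤ y → Real.log m ≤ w * ((2 * r + 4) * Real.log y) := by
    intro y h1 h2
    have h3 : m ≤ (y ^ (2 * r + 4)) ^ w := by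
      refine hlt.le.trans (Nat.pow_le_pow_left ?_ _)
      have h4 : 3 ≤ y ^ 2 := by nlinarith
      calc 3 * w ^ (2 * r) * n ^ 2 ≤ y ^ 2 * y ^ (2 * r) * y ^ 2 :=
            Nat.mul_le_mul (Nat.mul_le_mul h4 (Nat.pow_le_pow_left h1 _)) (Nat.pow_le_pow_left h2 _)
        _ = y ^ (2 * r + 4) := by ring
    have h5 : Real.log m ≤ Real.log (((y : ℝ) ^ (2 * r + 4)) ^ w) :=
      Real.log_le_log (by linarith) (by exact_mod_cast h3)
    rw [Real.log_pow, Real.log_pow] at h5
    push_cast at h5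
    exact h5
  rcases Nat.le_total w n with h1 | h1
  · refine (key n h1 le_rfl).trans ?_
    apply mul_le_mul_of_nonneg_left _ (by positivity)
    exact mul_le_mul_of_nonneg_left hMn (by positivity)
  · rcases le_total (w : ℝ) (Real.log m) with h2 | h2
    · refine (key w le_rfl h1).trans ?_
      apply mul_le_mul_of_nonneg_left _ (by positivity)
      apply mul_le_mul_of_nonneg_left _ (by positivity)
      exact (Real.log_le_log (by linarith) h2).trans hMm
    · refine h2.trans ?_
      have h3 : (1 : ℝ) ≤ (2 * r + 4) * M := by nlinarith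
      calc (w : ℝ) = w * 1 := (mul_one _).symm
        _ ≤ w * ((2 * r + 4) * M) := mul_le_mul_of_nonneg_left h3 (by positivity)

end Pool.Agent.Y613.HT
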