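import Mathlib

/-!
# Colourings of sets of integers computed by read-once programs
-/

set_option autoImplicit false

namespace Pool.Agent.Y613.HT

/-- The state of the machine after reading the digits number `π 0, …, π (t - 1)` of the vertices
`v 0, …, v (r - 1)`: it starts in `q₀`, and at time `t` it reads the digit number `π t` of each of
the `r` vertices and applies the transition `δ t`. -/
def state {Q : Type} {r : ℕ} (δ : ℕ → Q → (Fin r → Bool) → Q) (q₀ : Q) (π : ℕ → ℕ)
    (v : Fin r → ℕ) : ℕ → Q
  | 0 => q₀
  | t + 1 => δ t (state δ q₀ π v t) (fun i => (v i).testBit (π t))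

/-- The colour of every `r`-subset of `{0, …, 2 ^ m - 1}` is a function `g` of the final state of the
machine on the list of its elements in increasing order; `π` is the order in which the `m` digits
are read. -/
structure ComputedBy {κ Q : Type} (r m : ℕ) (c : Finset ℕ → κ)
    (δ : ℕ → Q → (Fin r → Bool) → Q) (q₀ : Q) (π : ℕ → ℕ) (g : Q → κ) : Prop where
  order : Set.BijOn π (Set.Iio m) (Set.Iio m)
  colour : ∀ v : Fin r → ℕ, StrictMono v → (∀ i, v i < 2 ^ m) →
    c (Finset.univ.image v) = g (state δ q₀ π v m)

/-- All `r`-subsets of `S` have the same colour. -/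
def Homogeneous {κ : Type} (r : ℕ) (c : Finset ℕ → κ) (S : Finset ℕ) : Prop :=
  ∀ A ⊆ S, ∀ B ⊆ S, A.card = r → B.card = r → c A = c B

/-- Some colouring of the `r`-subsets of `{0, …, 2 ^ m - 1}`, with any number of colours, is computed
by a read-once program with at most `w` states and has no homogeneous set of size `n`. -/
def Avoids (r m n w : ℕ) : Prop :=
  ∃ (κ Q : Type) (_ : Fintype Q) (c : Finset ℕ → κ) (δ : ℕ → Q → (Fin r → Bool) → Q) (q₀ : Q)
    (π : ℕ → ℕ) (g : Q → κ), Fintype.card Q ≤ w ∧ ComputedBy r m c δ q₀ π g ∧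
      ∀ S ⊆ Finset.range (2 ^ m), S.card = n → ¬ Homogeneous r c S

/-- The least number of states of such a program. -/
noncomputable def leastMemory (r m n : ℕ) : ℕ := sInf {w | Avoids r m n w}

end Pool.Agent.Y613.HT
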