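import Pool.Agent.Y613.HT.Run
import Pool.Agent.Y613.HT.Defs
import Pool.Agent.H834Q.Merge

/-!
# The Ramsey bound
-/

set_option autoImplicit false
set_option linter.unusedSectionVars false

namespace Pool.Agent.Y613.HT

open Finset Pool.Agent.Y613.FS

/-- a monotone subsequence -/
lemma exists_monotone {N x : ℕ} (hx : 1 ≤ x) (hN : x * x ≤ N) (f : ℕ → ℕ)
    (hf : ∀ i < N, ∀ j < N, f i = f j → i = j) : ∃ P ⊆ range N, x ≤ P.card ∧
      ((∀ i ∈ P, ∀ j ∈ P, i < j → f i < f j) ∨ (∀ i ∈ P, ∀ j ∈ P, i < j → f j < f i)) := by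
  rcases Pool.Agent.H834Q.mirsky (R := fun p q => p < q ∧ f p < f q) (fun p q h => h.1)
    (fun p q s h1 h2 => ⟨h1.1.trans h2.1, h1.2.trans h2.2⟩) (x - 1) (x - 1) (range N) (by
      rw [card_range]
      refine lt_of_lt_of_le ?_ hN
      calc (x - 1) * (x - 1) ≤ (x - 1) * x := Nat.mul_le_mul_left _ (Nat.sub_le _ _)
        _ < x * x := Nat.mul_lt_mul_of_pos_right (by omega) (by omega)) with h | h
  · obtain ⟨P, h1, h2, h3⟩ := h
    exact ⟨P, h1, by omega, Or.inl fun i hi j hj hij => (h3 i hi j hj hij).2⟩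
  · obtain ⟨P, h1, h2, h3⟩ := h
    refine ⟨P, h1, by omega, Or.inr ?_⟩
    intro i hi j hj hij
    have h4 := h3 i hi j hj
    push Not at h4
    rcases (h4 hij).eq_or_lt with h5 | h5
    · have := hf i (mem_range.mp (h1 hi)) j (mem_range.mp (h1 hj)) h5.symm
      omega
    · exact h5

/-- The Ramsey bound, from monotone subsequences. -/
theorem upper_of {r w n m N : ℕ} (h : (2 * N + 1) ^ w ≤ m) {κ Q : Type} [Fintype Q]
    (hw : Fintype.card Q ≤ w) {c : Finset ℕ → κ} {δ : ℕ → Q → (Fin r → Bool) → Q} {q₀ : Q}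
    {π : ℕ → ℕ} {g : Q → κ} (hc : ComputedBy r m c δ q₀ π g)
    (hmon : ∀ t : ℕ → ℕ, (∀ i j, i < j → j < N → t i < t j) → (∀ i < N, t i < m) →
      ∃ P ⊆ range N, w ^ r * n ≤ P.card ∧ ((∀ i ∈ P, ∀ j ∈ P, i < j → π (t i) < π (t j)) ∨
        (∀ i ∈ P, ∀ j ∈ P, i < j → π (t j) < π (t i)))) :
    ∃ S ⊆ range (2 ^ m), S.card = n ∧ Homogeneous r c S := by
  classical
  have : Nonempty Q := ⟨q₀⟩
  have hwpos : 0 < w := lt_of_lt_of_le Fintype.card_pos hw
  obtain ⟨K, hK⟩ : ∃ K, K = 2 * N + 1 := ⟨_, rfl⟩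
  obtain ⟨E, hE⟩ : ∃ E : ℕ → Q → Q, E = fun t q => δ t q (fun _ => false) := ⟨_, rfl⟩
  obtain ⟨F, hF⟩ : ∃ F : ℕ → ℕ → Q → Q, F = fun t i q => δ t q (fun j => decide ((j : ℕ) = i)) :=
    ⟨_, rfl⟩
  obtain ⟨a, R, hseg, -, haK⟩ := exists_seg (E := E) hw (show 1 ≤ K by omega) w 0 m
    (by
      rw [Nat.zero_add, hK]
      exact h)
    (by
      have := rk_pos (tt E 0 m)
      omega)
  -- the times of the jumps
  have htm : ∀ k < N, a (2 * k + 1) < m := fun k hk =>
    lt_of_lt_of_le (hseg.strictMono (show 2 * k + 1 < K by omega) le_rfl) haK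
  have htlt : ∀ k k', k < k' → k' < N → a (2 * k + 1) < a (2 * k' + 1) := fun k k' h1 h2 =>
    hseg.strictMono (by omega) (by omega)
  have hπm : ∀ t < m, π t < m := fun t ht => hc.order.mapsTo ht
  have hπinj : ∀ s < m, ∀ t < m, π s = π t → s = t := fun s hs t ht h => hc.order.injOn hs ht h
  have hfinj : ∀ i < N, ∀ j < N, π (a (2 * i + 1)) = π (a (2 * j + 1)) → i = j := by
    intro i hi j hj hij
    have h1 := hπinj _ (htm i hi) _ (htm j hj) hij
    rcases Nat.lt_trichotomy i j with h2 | h2 | h2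
    · have := htlt i j h2 hj
      omega
    · exact h2
    · have := htlt j i h2 hi
      omega
  obtain ⟨P, hP, hPx, hPm⟩ := hmon (fun k => a (2 * k + 1)) htlt htm
  -- the coordinates of the jumps
  obtain ⟨co, hco, hcoinv, hcomon⟩ : ∃ co : ℕ → ℕ, (∀ i < r, co i < r) ∧
      (∀ i < r, ∃ j < r, co j = i) ∧
      ∀ i j, i < j → j < r → ∀ p ∈ P, ∀ q ∈ P, (∀ i' j' : ℕ, i' < j' →
        (i' = co i ∧ j' = co j → π (a (2 * p + 1)) < π (a (2 * q + 1))) ∧
        (i' = co j ∧ j' = co i → π (a (2 * q + 1)) < π (a (2 * p + 1)))) → co i ≠ co j → p < q := by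
    rcases hPm with hPm | hPm
    · refine ⟨fun i => i, fun i hi => hi, fun i hi => ⟨i, hi, rfl⟩, ?_⟩
      intro i j hij hjr p hp q hq h1 _
      have h2 := (h1 i j hij).1 ⟨rfl, rfl⟩
      rcases Nat.lt_trichotomy p q with h3 | h3 | h3
      · exact h3
      · rw [h3] at h2
        omega
      · have := hPm q hq p hp h3
        omega
    · refine ⟨fun i => r - 1 - i, fun i hi => by show r - 1 - i < r; omega,
        fun i hi => ⟨r - 1 - i, by omega, by show r - 1 - (r - 1 - i) = i; omega⟩, ?_⟩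
      intro i j hij hjr p hp q hq h1 _
      have h2 := (h1 (r - 1 - j) (r - 1 - i) (by omega)).2 ⟨rfl, rfl⟩
      rcases Nat.lt_trichotomy p q with h3 | h3 | h3
      · exact h3
      · rw [h3] at h2
        omega
      · have := hPm q hq p hp h3
        omega
  have hcoinj : ∀ i < r, ∀ j < r, co i = co j → i = j := by
    intro i hi j hj hij
    have hsurj : Set.SurjOn co (range r : Set ℕ) (range r : Set ℕ) := by
      intro y hy
      obtain ⟨j, hj, hjy⟩ := hcoinv y (by simpa using hy)
      exact ⟨j, by simpa using hj, hjy⟩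
    have hinj := Finset.injOn_of_surjOn_of_card_le (s := range r) (t := range r) co
      (fun i hi => by simpa using hco i (by simpa using hi)) hsurj le_rfl
    exact hinj (by simpa using hi) (by simpa using hj) hij
  obtain ⟨J', l, hJ'P, hJ'n, hl0, hl⟩ := exists_labels (E := E) (F := F) (a := a) (K := K) hw co
    (tt E 0 (a K) q₀) P n r hPx
  obtain ⟨J, hJJ', hJn⟩ := exists_subset_card_eq hJ'n
  have hJN : ∀ k ∈ J, k < N := fun k hk => mem_range.mp (hP (hJ'P (hJJ' hk)))
  -- the homogeneous set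
  have hSinj : Set.InjOn (fun k => 2 ^ π (a (2 * k + 1))) (J : Set ℕ) := by
    intro i hi j hj hij
    exact hfinj i (hJN i hi) j (hJN j hj) (Nat.pow_right_injective le_rfl hij)
  refine ⟨J.image (fun k => 2 ^ π (a (2 * k + 1))), ?_, ?_, ?_⟩
  · intro y hy
    rw [mem_image] at hy
    obtain ⟨k, hk, rfl⟩ := hy
    rw [mem_range]
    exact Nat.pow_lt_pow_right (by norm_num) (hπm _ (htm k (hJN k hk)))
  · rw [card_image_of_injOn hSinj, hJn]
  have key : ∀ A ⊆ J.image (fun k => 2 ^ π (a (2 * k + 1))), A.card = r →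
      c A = g (tt E (a K) m (l r)) := by
    intro A hA hAr
    obtain ⟨v, hv⟩ : ∃ v : Fin r → ℕ, v = A.orderEmbOfFin hAr := ⟨_, rfl⟩
    have hvmono : StrictMono v := by
      rw [hv]
      exact (A.orderEmbOfFin hAr).strictMono
    have hvA : ∀ i, v i ∈ A := by
      intro i
      rw [hv]
      exact A.orderEmbOfFin_mem hAr i
    have hvim : univ.image v = A := by
      ext y
      rw [mem_image]
      constructor
      · rintro ⟨i, -, rfl⟩
        exact hvA i
      · intro hy
        have : y ∈ Set.range (A.orderEmbOfFin hAr) := by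
          rw [A.range_orderEmbOfFin hAr]
          exact hy
        obtain ⟨i, hi⟩ := this
        exact ⟨i, mem_univ _, by rw [hv]; exact hi⟩
    have hvk : ∀ i, ∃ k ∈ J, 2 ^ π (a (2 * k + 1)) = v i := by
      intro i
      have := hA (hvA i)
      rw [mem_image] at this
      exact this
    choose kk hkJ hkv using hvk
    have hvlt : ∀ i, v i < 2 ^ m := by
      intro i
      rw [← hkv]
      exact Nat.pow_lt_pow_right (by norm_num) (hπm _ (htm _ (hJN _ (hkJ i))))
    have hkkinj : ∀ i j, kk i = kk j → i = j := by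
      intro i j hij
      apply hvmono.injective
      rw [← hkv, ← hkv, hij]
    have hπlt : ∀ i j, i < j → π (a (2 * kk i + 1)) < π (a (2 * kk j + 1)) := by
      intro i j hij
      have h1 := hvmono hij
      rw [← hkv, ← hkv] at h1
      exact (Nat.pow_lt_pow_iff_right (by norm_num)).mp h1
    obtain ⟨k, hk⟩ : ∃ k : ℕ → ℕ, ∀ i (hi : i < r), k i = kk ⟨co i, hco i hi⟩ :=
      ⟨fun i => if hi : i < r then kk ⟨co i, hco i hi⟩ else 0, fun i hi => by simp only [dif_pos hi]⟩
    have hkN : ∀ i < r, k i < N := by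
      intro i hi
      rw [hk i hi]
      exact hJN _ (hkJ _)
    have hkmono : ∀ i j, i < j → j < r → k i < k j := by
      intro i j hij hjr
      have hir : i < r := by omega
      rw [hk i hir, hk j hjr]
      refine hcomon i j hij hjr _ (hJ'P (hJJ' (hkJ _))) _ (hJ'P (hJJ' (hkJ _))) ?_
        (fun h => by have := hcoinj i hir j hjr h; omega)
      intro i' j' hij'
      refine ⟨?_, ?_⟩
      · rintro ⟨rfl, rfl⟩
        exact hπlt _ _ (by rw [Fin.mk_lt_mk]; exact hij')
      · rintro ⟨rfl, rfl⟩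
        exact hπlt _ _ (by rw [Fin.mk_lt_mk]; exact hij')
    -- the columns
    have hcol : ∀ s < m, ∀ i : Fin r, (v i).testBit (π s) = decide (a (2 * kk i + 1) = s) := by
      intro s hs i
      rw [← hkv, Nat.testBit_two_pow]
      by_cases h1 : a (2 * kk i + 1) = s
      · simp [h1]
      · have h2 : π (a (2 * kk i + 1)) ≠ π s :=
          fun h2 => h1 (hπinj _ (htm _ (hJN _ (hkJ i))) _ hs h2)
        simp [h1, h2]
    have hfin := final_state (E := E) (F := F) (r := r) (N := N) (m := m) hseg hK haK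
      (x := state δ q₀ π v) (k := k) hkN hkmono (c := co)
      (by
        intro t ht hne
        show δ t (state δ q₀ π v t) _ = E t (state δ q₀ π v t)
        rw [hE]
        simp only
        congr 1
        funext i
        rw [hcol t ht]
        apply decide_eq_false
        intro h1
        obtain ⟨j, hj, hji⟩ := hcoinv i i.2
        apply hne j hj
        rw [hk j hj, ← h1]
        congr 4
        exact Fin.ext hji.symm)
      (by
        intro i hi
        show δ (a (2 * k i + 1)) (state δ q₀ π v (a (2 * k i + 1))) _ = _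
        rw [hF]
        simp only
        congr 1
        funext j
        rw [hcol _ (htm _ (hkN i hi))]
        congr 1
        apply propext
        constructor
        · intro h1
          have h2 : kk j = k i := by
            rcases Nat.lt_trichotomy (kk j) (k i) with h3 | h3 | h3
            · have := htlt _ _ h3 (hkN i hi)
              omega
            · exact h3
            · have := htlt _ _ h3 (hJN _ (hkJ j))
              omega
          rw [hk i hi] at h2
          have := hkkinj _ _ h2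
          rw [this]
        · intro h1
          rw [hk i hi]
          congr 4
          exact Fin.ext h1)
      (l := l) (by rw [hl0]; rfl)
      (by
        intro i hi
        refine hl i hi _ ?_
        rw [hk i hi]
        exact hJJ' (hkJ _))
    rw [← hvim, hc.colour v hvmono hvlt, hfin]
  intro A hA B hB hAr hBr
  rw [key A hA hAr, key B hB hBr]

lemma homogeneous_zero {κ : Type} (r m : ℕ) (c : Finset ℕ → κ) :
    ∃ S ⊆ range (2 ^ m), S.card = 0 ∧ Homogeneous r c S := by
  refine ⟨∅, by simp, rfl, ?_⟩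
  intro A hA B hB _ _
  rw [subset_empty] at hA hB
  rw [hA, hB]

/-- **The Ramsey bound.** -/
theorem upper {r w n m : ℕ} (h : (3 * w ^ (2 * r) * n ^ 2) ^ w ≤ m) {κ Q : Type} [Fintype Q]
    (hw : Fintype.card Q ≤ w) {c : Finset ℕ → κ} {δ : ℕ → Q → (Fin r → Bool) → Q} {q₀ : Q}
    {π : ℕ → ℕ} {g : Q → κ} (hc : ComputedBy r m c δ q₀ π g) :
    ∃ S ⊆ range (2 ^ m), S.card = n ∧ Homogeneous r c S := by
  rcases Nat.eq_zero_or_pos n with hn | hn
  · subst hn
    exact homogeneous_zero r m c
  have hwpos : 0 < w := lt_of_lt_of_le (Fintype.card_pos_iff.mpr ⟨q₀⟩) hw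
  obtain ⟨x, hx⟩ : ∃ x, x = w ^ r * n := ⟨_, rfl⟩
  have hxpos : 1 ≤ x := by
    rw [hx]
    have : 0 < w ^ r * n := by positivity
    exact this
  have hKle : 2 * (x * x) + 1 ≤ 3 * w ^ (2 * r) * n ^ 2 := by
    have e : 3 * w ^ (2 * r) * n ^ 2 = 3 * (x * x) := by
      rw [hx]
      ring
    have : 1 ≤ x * x := Nat.mul_pos hxpos hxpos
    omega
  refine upper_of (N := x * x) ((Nat.pow_le_pow_left hKle w).trans h) hw hc ?_
  intro t ht htm
  rw [← hx]
  refine exists_monotone hxpos le_rfl (fun i => π (t i)) ?_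
  intro i hi j hj hij
  have h1 := hc.order.injOn (htm i hi) (htm j hj) hij
  rcases Nat.lt_trichotomy i j with h2 | h2 | h2
  · have := ht i j h2 hj
    omega
  · exact h2
  · have := ht j i h2 hi
    omega

/-- The Ramsey bound for programs reading the digits in the natural order, from either end. -/
theorem upper_monotone {r w n m : ℕ} (h : (3 * w ^ r * n) ^ w ≤ m) {κ Q : Type} [Fintype Q]
    (hw : Fintype.card Q ≤ w) {c : Finset ℕ → κ} {δ : ℕ → Q → (Fin r → Bool) → Q} {q₀ : Q}
    {π : ℕ → ℕ} {g : Q → κ} (hc : ComputedBy r m c δ q₀ π g)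
    (hπ : StrictMonoOn π (Set.Iio m) ∨ StrictAntiOn π (Set.Iio m)) :
    ∃ S ⊆ range (2 ^ m), S.card = n ∧ Homogeneous r c S := by
  rcases Nat.eq_zero_or_pos n with hn | hn
  · subst hn
    exact homogeneous_zero r m c
  have hwpos : 0 < w := lt_of_lt_of_le (Fintype.card_pos_iff.mpr ⟨q₀⟩) hw
  obtain ⟨x, hx⟩ : ∃ x, x = w ^ r * n := ⟨_, rfl⟩
  have hxpos : 1 ≤ x := by
    rw [hx]
    have : 0 < w ^ r * n := by positivity
    exact this
  have hKle : 2 * x + 1 ≤ 3 * w ^ r * n := by
    have e : 3 * w ^ r * n = 3 * x := by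
      rw [hx]
      ring
    omega
  refine upper_of (N := x) ((Nat.pow_le_pow_left hKle w).trans h) hw hc ?_
  intro t ht htm
  rw [← hx]
  refine ⟨range x, Subset.rfl, by rw [card_range], ?_⟩
  rcases hπ with hπ | hπ
  · refine Or.inl ?_
    intro i hi j hj hij
    exact hπ (htm i (mem_range.mp hi)) (htm j (mem_range.mp hj)) (ht i j hij (mem_range.mp hj))
  · refine Or.inr ?_
    intro i hi j hj hij
    exact hπ (htm i (mem_range.mp hi)) (htm j (mem_range.mp hj)) (ht i j hij (mem_range.mp hj))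

end Pool.Agent.Y613.HT
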