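import Pool.Agent.Y613.HT.Seg

/-!
# Labels and runs
-/

set_option autoImplicit false
set_option linter.unusedSectionVars false

namespace Pool.Agent.Y613.HT

open Finset Pool.Agent.Y613.FS

variable {Q C : Type} [Fintype Q] [DecidableEq Q] [Nonempty Q]
  {E : ℕ → Q → Q} {a : ℕ → ℕ} {K R : ℕ}

/-- the states reached at the end of a segment -/
def U (E : ℕ → Q → Q) (a : ℕ → ℕ) (i : ℕ) : Finset Q := univ.image (tt E (a i) (a (i + 1)))

/-- the label of a state at the end of a segment -/
def lb (E : ℕ → Q → Q) (a : ℕ → ℕ) (K i : ℕ) : Q → Q := tt E (a (i + 1)) (a K)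

lemma mem_U (i : ℕ) (x : Q) : tt E (a i) (a (i + 1)) x ∈ U E a i :=
  mem_image_of_mem _ (mem_univ x)

lemma lb_injOn (h : Seg E a K R) {i : ℕ} (hi : i < K) :
    Set.InjOn (lb E a K i) (U E a i : Set Q) := by
  have h1 : (U E a i).card = R := h.one i hi
  have h2 : R ≤ ((U E a i).image (lb E a K i)).card := by
    rw [← h.all]
    refine (rk_tt_le (h.mono (Nat.zero_le i) hi.le) (h.mono hi.le le_rfl) le_rfl).trans ?_
    unfold rk
    apply card_le_card
    intro y hy
    rw [mem_image] at hy ⊢
    obtain ⟨z, -, hz⟩ := hy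
    refine ⟨tt E (a i) (a (i + 1)) z, mem_U i z, ?_⟩
    unfold lb
    rw [tt_trans (h.lt i hi).le (h.mono hi le_rfl)]
    exact hz
  exact card_image_iff.mp (le_antisymm card_image_le (by rw [h1]; exact h2))

/-- the effect of a jump on the labels -/
noncomputable def Phi (E : ℕ → Q → Q) (F : ℕ → C → Q → Q) (a : ℕ → ℕ) (K k : ℕ) (c : C)
    (l : Q) : Q :=
  tt E (a (2 * k + 1) + 1) (a K)
    (F (a (2 * k + 1)) c (Function.invFunOn (lb E a K (2 * k)) (U E a (2 * k) : Set Q) l))

/-- **The final state.** -/
theorem final_state {F : ℕ → C → Q → Q} {r N m : ℕ} (h : Seg E a K R) (hK : K = 2 * N + 1)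
    (hm : a K ≤ m) {x : ℕ → Q} {k : ℕ → ℕ} (hk : ∀ i < r, k i < N)
    (hkm : ∀ i j, i < j → j < r → k i < k j) {c : ℕ → C}
    (hx : ∀ t < m, (∀ i < r, t ≠ a (2 * k i + 1)) → x (t + 1) = E t (x t))
    (hj : ∀ i < r, x (a (2 * k i + 1) + 1) = F (a (2 * k i + 1)) (c i) (x (a (2 * k i + 1))))
    {l : ℕ → Q} (hl0 : l 0 = tt E 0 (a K) (x 0))
    (hl : ∀ i < r, Phi E F a K (k i) (c i) (l i) = l (i + 1)) :
    x m = tt E (a K) m (l r) := by
  -- runs without jumps
  have hzero : ∀ p q, p ≤ q → q ≤ m → (∀ t, p ≤ t → t < q → ∀ i < r, t ≠ a (2 * k i + 1)) →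
      x q = tt E p q (x p) := by
    intro p q hpq
    induction q with
    | zero =>
      intro _ _
      rw [Nat.le_zero.mp hpq, tt_self]
    | succ q ih =>
      intro hq ht
      rcases hpq.eq_or_lt with h1 | h1
      · rw [h1, tt_self]
      · rw [tt_succ (by omega), hx q (by omega) (ht q (by omega) (by omega)),
          ih (by omega) (by omega) (fun t h2 h3 => ht t h2 (by omega))]
  have hmain : ∀ j, j ≤ r → ∃ p, (j = 0 ∧ p = 0 ∨ ∃ j', j = j' + 1 ∧ p = 2 * k j' + 2) ∧
      x (a (p + 1)) ∈ U E a p ∧ lb E a K p (x (a (p + 1))) = l j := by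
    intro j
    induction j with
    | zero =>
      intro _
      refine ⟨0, Or.inl ⟨rfl, rfl⟩, ?_, ?_⟩
      · have h1 : x (a 1) = tt E (a 0) (a 1) (x (a 0)) := by
          refine hzero _ _ (h.mono (by omega) (by omega))
            ((h.mono (by omega) le_rfl).trans hm) ?_
          intro t _ h2 i hi
          have h3 := h.mono (show 1 ≤ 2 * k i + 1 by omega) (by have := hk i hi; omega)
          omega
        rw [Nat.zero_add, h1]
        exact mem_U 0 _
      · have h1 : x (a 1) = tt E 0 (a 1) (x 0) := by
          refine hzero _ _ (Nat.zero_le _) ((h.mono (by omega) le_rfl).trans hm) ?_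
          intro t _ h2 i hi
          have h3 := h.mono (show 1 ≤ 2 * k i + 1 by omega) (by have := hk i hi; omega)
          omega
        unfold lb
        rw [Nat.zero_add, h1, tt_trans (Nat.zero_le _) (h.mono (by omega) le_rfl), hl0]
    | succ j ih =>
      intro hjr
      obtain ⟨p, hp, h1, h2⟩ := ih (by omega)
      have hkj := hk j (by omega)
      -- the gap before the jump
      have hpk : p ≤ 2 * k j := by
        rcases hp with ⟨-, hp⟩ | ⟨j', hj', hp⟩
        · omega
        · have := hkm j' j (by omega) (by omega)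
          omega
      have hgap : x (a (2 * k j + 1)) = tt E (a (p + 1)) (a (2 * k j + 1)) (x (a (p + 1))) := by
        refine hzero _ _ (h.mono (by omega) (by omega)) ((h.mono (by omega) le_rfl).trans hm) ?_
        intro t h3 h4 i hi
        rcases Nat.lt_or_ge i j with h5 | h5
        · rcases hp with ⟨hp, -⟩ | ⟨j', hj', hp⟩
          · omega
          · have h6 : k i ≤ k j' := by
              rcases (show i ≤ j' by omega).eq_or_lt with h7 | h7
              · rw [h7]
              · exact (hkm i j' h7 (by omega)).le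
            have h7 := h.strictMono (show 2 * k i + 1 < p + 1 by omega)
              (by have := hk j' (by omega); omega)
            omega
        · have h6 : k j ≤ k i := by
            rcases h5.eq_or_lt with h7 | h7
            · rw [h7]
            · exact (hkm j i h7 hi).le
          have h7 := h.mono (show 2 * k j + 1 ≤ 2 * k i + 1 by omega)
            (by have := hk i hi; omega)
          omega
      have hU : x (a (2 * k j + 1)) ∈ U E a (2 * k j) := by
        rcases hpk.eq_or_lt with h3 | h3
        · rw [← h3]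
          exact h1
        · rw [hgap, ← tt_trans (h.mono (show p + 1 ≤ 2 * k j by omega) (by omega))
            (h.mono (show 2 * k j ≤ 2 * k j + 1 by omega) (by omega))]
          exact mem_U _ _
      have hlb : lb E a K (2 * k j) (x (a (2 * k j + 1))) = l j := by
        rw [← h2, hgap]
        unfold lb
        rw [tt_trans (h.mono (by omega) (by omega)) (h.mono (by omega) le_rfl)]
      have hinv : Function.invFunOn (lb E a K (2 * k j)) (U E a (2 * k j) : Set Q) (l j) =
          x (a (2 * k j + 1)) := by
        rw [← hlb]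
        exact (lb_injOn h (by omega)).leftInvOn_invFunOn (mem_coe.mpr hU)
      -- the gap after the jump
      have hlt1 : a (2 * k j + 1) < a (2 * k j + 2) := h.lt _ (by omega)
      have hlt2 : a (2 * k j + 2) < a (2 * k j + 3) := h.lt _ (by omega)
      have hgap2 : x (a (2 * k j + 3)) =
          tt E (a (2 * k j + 1) + 1) (a (2 * k j + 3)) (x (a (2 * k j + 1) + 1)) := by
        refine hzero _ _ (by omega) ((h.mono (by omega) le_rfl).trans hm) ?_
        intro t h3 h4 i hi
        rcases Nat.lt_or_ge j i with h5 | h5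
        · have h6 := hkm j i h5 hi
          have h7 := h.mono (show 2 * k j + 3 ≤ 2 * k i + 1 by omega)
            (by have := hk i hi; omega)
          omega
        · have h6 : k i ≤ k j := by
            rcases h5.eq_or_lt with h7 | h7
            · rw [h7]
            · exact (hkm i j h7 (by omega)).le
          have h7 := h.mono (show 2 * k i + 1 ≤ 2 * k j + 1 by omega) (by omega)
          omega
      refine ⟨2 * k j + 2, Or.inr ⟨j, rfl, rfl⟩, ?_, ?_⟩
      · rw [show 2 * k j + 2 + 1 = 2 * k j + 3 by omega, hgap2,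
          ← tt_trans (show a (2 * k j + 1) + 1 ≤ a (2 * k j + 2) by omega) hlt2.le]
        exact mem_U (2 * k j + 2) _
      · rw [← hl j (by omega)]
        unfold Phi
        rw [hinv, ← hj j (by omega)]
        unfold lb
        rw [show 2 * k j + 2 + 1 = 2 * k j + 3 by omega, hgap2,
          tt_trans (by omega) (h.mono (by omega) le_rfl)]
  obtain ⟨p, hp, h1, h2⟩ := hmain r le_rfl
  have hpK : p + 1 ≤ K := by
    rcases hp with ⟨-, hp⟩ | ⟨j', hj', hp⟩
    · omega
    · have := hk j' (by omega)
      omega
  have hend : x m = tt E (a (p + 1)) m (x (a (p + 1))) := by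
    refine hzero _ _ ((h.mono hpK le_rfl).trans hm) le_rfl ?_
    intro t h3 h4 i hi
    rcases hp with ⟨hp, -⟩ | ⟨j', hj', hp⟩
    · omega
    · have h6 : k i ≤ k j' := by
        rcases (show i ≤ j' by omega).eq_or_lt with h7 | h7
        · rw [h7]
        · exact (hkm i j' h7 (by omega)).le
      have h7 := h.strictMono (show 2 * k i + 1 < p + 1 by omega) hpK
      omega
  rw [← h2, hend]
  unfold lb
  rw [tt_trans (h.mono hpK le_rfl) hm]

/-- pigeonhole for the labels -/
theorem exists_labels {F : ℕ → C → Q → Q} {w : ℕ} (hw : Fintype.card Q ≤ w) (c : ℕ → C) (l₀ : Q)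
    (P : Finset ℕ) (n : ℕ) : ∀ r, w ^ r * n ≤ P.card → ∃ (J : Finset ℕ) (l : ℕ → Q), J ⊆ P ∧
      n ≤ J.card ∧ l 0 = l₀ ∧ ∀ i < r, ∀ k ∈ J, Phi E F a K k (c i) (l i) = l (i + 1) := by
  intro r
  induction r generalizing n with
  | zero =>
    intro h
    exact ⟨P, fun _ => l₀, Subset.rfl, by rw [pow_zero, one_mul] at h; exact h, rfl, by
      intro i hi; omega⟩
  | succ r ih =>
    intro h
    obtain ⟨J, l, h1, h2, h3, h4⟩ := ih (w * n) (by rw [← mul_assoc, ← pow_succ]; exact h)
    obtain ⟨y, -, hy⟩ := exists_le_card_fiber_of_mul_le_card_of_maps_to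
      (s := J) (t := (univ : Finset Q)) (f := fun k => Phi E F a K k (c r) (l r)) (n := n)
      (fun _ _ => mem_univ _) univ_nonempty (by
        rw [card_univ]
        exact (Nat.mul_le_mul_right _ hw).trans h2)
    refine ⟨J.filter (fun k => Phi E F a K k (c r) (l r) = y),
      fun i => if i ≤ r then l i else y, (filter_subset _ _).trans h1, hy, ?_, ?_⟩
    · simp only [Nat.zero_le, if_true]
      exact h3
    · intro i hi k hk
      rw [mem_filter] at hk
      rcases (show i ≤ r by omega).eq_or_lt with h5 | h5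
      · subst h5
        simp only [le_refl, if_true]
        rw [if_neg (by omega)]
        exact hk.2
      · have h6 : i + 1 ≤ r := h5
        simp only [h5.le, h6, if_true]
        exact h4 i h5 k hk.1

end Pool.Agent.Y613.HT
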