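import Pool.Agent.Y613.FS.Rank

/-!
# Compositions of maps of constant rank
-/

set_option autoImplicit false
set_option linter.unusedSectionVars false

namespace Pool.Agent.Y613.HT

open Finset Pool.Agent.Y613.FS

section comp

variable {Q : Type}

/-- `E (p + d - 1) ∘ … ∘ E p` -/
def cmp (E : ℕ → Q → Q) (p : ℕ) : ℕ → Q → Q
  | 0, x => x
  | d + 1, x => E (p + d) (cmp E p d x)

lemma cmp_add (E : ℕ → Q → Q) (p d d' : ℕ) (x : Q) :
    cmp E p (d + d') x = cmp E (p + d) d' (cmp E p d x) := by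
  induction d' with
  | zero => rfl
  | succ d' ih =>
    rw [← add_assoc, cmp, cmp, ih, add_assoc]

/-- the composition of the maps at the times `p ≤ t < q` -/
def tt (E : ℕ → Q → Q) (p q : ℕ) : Q → Q := cmp E p (q - p)

variable {E : ℕ → Q → Q}

lemma tt_self (p : ℕ) (x : Q) : tt E p p x = x := by
  unfold tt
  rw [Nat.sub_self]
  rfl

lemma tt_trans {p q s : ℕ} (h1 : p ≤ q) (h2 : q ≤ s) (x : Q) :
    tt E q s (tt E p q x) = tt E p s x := by
  unfold tt
  have := cmp_add E p (q - p) (s - q) x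
  rw [show p + (q - p) = q by omega, show q - p + (s - q) = s - p by omega] at this
  exact this.symm

lemma tt_succ {p q : ℕ} (h : p ≤ q) (x : Q) : tt E p (q + 1) x = E q (tt E p q x) := by
  unfold tt
  rw [show q + 1 - p = (q - p) + 1 by omega, cmp, show p + (q - p) = q by omega]

end comp

section seg

variable {Q : Type} [Fintype Q] [DecidableEq Q] {E : ℕ → Q → Q}

lemma rk_tt_le {p p' q' q : ℕ} (h1 : p ≤ p') (h2 : p' ≤ q') (h3 : q' ≤ q) :
    rk (tt E p q) ≤ rk (tt E p' q') := by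
  have h : tt E p q = tt E q' q ∘ (tt E p' q' ∘ tt E p p') := by
    funext x
    simp only [Function.comp_apply]
    rw [tt_trans h1 h2, tt_trans (h1.trans h2) h3]
  rw [h]
  exact (rk_comp_le_right _ _).trans (rk_comp_le_left _ _)

/-- boundaries of segments of constant rank -/
structure Seg (E : ℕ → Q → Q) (a : ℕ → ℕ) (K R : ℕ) : Prop where
  lt : ∀ i < K, a i < a (i + 1)
  one : ∀ i < K, rk (tt E (a i) (a (i + 1))) = R
  all : rk (tt E (a 0) (a K)) = R

lemma Seg.mono {a : ℕ → ℕ} {K R : ℕ} (h : Seg E a K R) {i j : ℕ} (hij : i ≤ j) (hj : j ≤ K) :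
    a i ≤ a j := by
  induction j with
  | zero => rw [Nat.le_zero.mp hij]
  | succ j ih =>
    rcases hij.eq_or_lt with h1 | h1
    · rw [h1]
    · exact (ih (by omega) (by omega)).trans (h.lt j (by omega)).le

lemma Seg.strictMono {a : ℕ → ℕ} {K R : ℕ} (h : Seg E a K R) {i j : ℕ} (hij : i < j)
    (hj : j ≤ K) : a i < a j :=
  lt_of_lt_of_le (h.lt i (by omega)) (h.mono hij hj)

/-- **Segments of constant rank.** -/
theorem exists_seg {w K : ℕ} (hw : Fintype.card Q ≤ w) (hK : 1 ≤ K) : ∀ (s p q : ℕ),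
    p + K ^ s ≤ q → w + 1 ≤ rk (tt E p q) + s →
    ∃ (a : ℕ → ℕ) (R : ℕ), Seg E a K R ∧ p ≤ a 0 ∧ a K ≤ q := by
  intro s
  induction s with
  | zero =>
    intro p q _ h
    have := (rk_le (tt E p q)).trans hw
    omega
  | succ s ih =>
    intro p q hpq h
    have hKs : 1 ≤ K ^ s := Nat.one_le_pow _ _ hK
    have hpow : K * K ^ s = K ^ (s + 1) := by ring
    by_cases hall : ∀ i < K, rk (tt E (p + i * K ^ s) (p + (i + 1) * K ^ s)) =
        rk (tt E p (p + K * K ^ s))
    · refine ⟨fun i => p + i * K ^ s, rk (tt E p (p + K * K ^ s)), ⟨?_, hall, ?_⟩, ?_, ?_⟩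
      · intro i _
        have : (i + 1) * K ^ s = i * K ^ s + K ^ s := by ring
        show p + i * K ^ s < p + (i + 1) * K ^ s
        omega
      · show rk (tt E (p + 0 * K ^ s) (p + K * K ^ s)) = _
        rw [Nat.zero_mul, Nat.add_zero]
      · show p ≤ p + 0 * K ^ s
        omega
      · show p + K * K ^ s ≤ q
        omega
    · push Not at hall
      obtain ⟨i, hi, hne⟩ := hall
      have e1 : (i + 1) * K ^ s = i * K ^ s + K ^ s := by ring
      have e2 : (i + 1) * K ^ s ≤ K * K ^ s := Nat.mul_le_mul_right _ hi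
      have h1 : rk (tt E p (p + K * K ^ s)) ≤
          rk (tt E (p + i * K ^ s) (p + (i + 1) * K ^ s)) :=
        rk_tt_le (by omega) (by omega) (by omega)
      have h2 : rk (tt E p q) ≤ rk (tt E p (p + K * K ^ s)) :=
        rk_tt_le le_rfl (by omega) (by omega)
      obtain ⟨a, R, h3, h4, h5⟩ := ih (p + i * K ^ s) (p + (i + 1) * K ^ s) (by omega) (by omega)
      exact ⟨a, R, h3, by omega, by omega⟩

end seg

end Pool.Agent.Y613.HT
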